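import Mathlib

/-!
Definitions for the spectral extremal problem MP_2bde17_co.
-/

namespace Pool.Agent.H71.Spex

open SimpleGraph

open Classical in
/-- The largest eigenvalue of the adjacency matrix. -/
noncomputable def lam {V : Type} [Fintype V] (G : SimpleGraph V) : ℝ :=
  sSup (spectrum ℝ (G.adjMatrix ℝ))

/-- `spex(n, T)`: the largest `lam G` over all `T`-free graphs on `n` vertices. -/
noncomputable def spex (n : ℕ) {W : Type} (T : SimpleGraph W) : ℝ :=
  sSup {x : ℝ | ∃ G : SimpleGraph (Fin n), T.Free G ∧ x = lam G}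

/-- The join of two graphs: disjoint union plus all edges between the two parts. -/
def join {V W : Type} (G : SimpleGraph V) (H : SimpleGraph W) : SimpleGraph (V ⊕ W) :=
  (G ⊕g H) ⊔ completeBipartiteGraph V W

/-- `m` disjoint copies of the star `S_k` on `k` vertices (centre `0` in every copy). -/
def stars (m k : ℕ) : SimpleGraph (Fin m × Fin k) where
  Adj p q := p.1 = q.1 ∧ p.2 ≠ q.2 ∧ ((p.2 : ℕ) = 0 ∨ (q.2 : ℕ) = 0)
  symm := ⟨fun _ _ h => ⟨h.1.symm, h.2.1.symm, h.2.2.symm⟩⟩
  loopless := ⟨fun _ h => h.2.1 rfl⟩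

/-- The function `f(x, n)` of the problem (with the parameter `l`). -/
noncomputable def f (l : ℕ) (x : ℝ) (n : ℕ) : ℝ :=
  ((l + x - 1) + √((l + x - 1) ^ 2 + 4 * (n * l + x - l * x - l ^ 2))) / 2

open Classical in
/-- `T` lies in the class with parameters `m`, `l + 1`, `δ`: a tree on `m` vertices with smaller
colour class `A` of size `l + 1`, and `δ` is the minimum degree of the vertices of `A`
(the smaller of both class minimum degrees if the classes have equal size). -/
def TreeClass (m l δ : ℕ) (T : SimpleGraph (Fin m)) : Prop :=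
  T.IsTree ∧ ∃ A : Finset (Fin m), (∀ u v, T.Adj u v → (u ∈ A ↔ v ∉ A)) ∧
    A.card = l + 1 ∧ A.card ≤ Aᶜ.card ∧ IsLeast {d | ∃ v ∈ A, d = T.degree v} δ ∧
    (A.card = Aᶜ.card → ∀ v ∈ Aᶜ, δ ≤ T.degree v)

end Pool.Agent.H71.Spex
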