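import Mathlib
import Pool.Agent.H71.Spex.Defs

/-!
The nine vertex tree and its basic properties.
-/

namespace Pool.Agent.H71.Spex

open SimpleGraph

/-- edge list of the tree -/
def edges9 : List (Fin 9 × Fin 9) := [(0,1),(0,2),(0,3),(2,4),(3,5),(1,6),(1,7),(1,8)]

/-- The tree on nine vertices. -/
def T9 : SimpleGraph (Fin 9) where
  Adj i j := (i, j) ∈ edges9 ∨ (j, i) ∈ edges9
  symm := ⟨fun _ _ h => h.symm⟩
  loopless := ⟨by decide⟩

instance : DecidableRel T9.Adj := fun i j =>
  inferInstanceAs (Decidable ((i, j) ∈ edges9 ∨ (j, i) ∈ edges9))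

theorem T9_isTree : T9.IsTree := by
  rw [isTree_iff_connected_and_card]
  constructor
  · rw [connected_iff_exists_forall_reachable]
    refine ⟨0, ?_⟩
    have h : ∀ i j : Fin 9, T9.Adj i j → T9.Reachable 0 i → T9.Reachable 0 j :=
      fun i j hij hi => hi.trans hij.reachable
    have h0 : T9.Reachable 0 0 := Reachable.refl 0
    have h1 := h 0 1 (by decide) h0
    have h2 := h 0 2 (by decide) h0
    have h3 := h 0 3 (by decide) h0
    have h4 := h 2 4 (by decide) h2
    have h5 := h 3 5 (by decide) h3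
    have h6 := h 1 6 (by decide) h1
    have h7 := h 1 7 (by decide) h1
    have h8 := h 1 8 (by decide) h1
    intro w
    fin_cases w <;> assumption
  · rw [Nat.card_eq_fintype_card, Nat.card_eq_fintype_card]
    decide

theorem deg9 (v : Fin 9) (i j : Fintype (T9.neighborSet v)) :
    @SimpleGraph.degree _ T9 v i = @SimpleGraph.degree _ T9 v j :=
  congrArg (fun i => @SimpleGraph.degree _ T9 v i) (Subsingleton.elim _ _)

theorem T9_class : TreeClass 9 2 2 T9 := by
  refine ⟨T9_isTree, {1, 2, 3}, by decide, by decide, by decide, ?_, ?_⟩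
  · constructor
    · exact ⟨2, by decide, (show 2 = T9.degree 2 by decide).trans (deg9 2 _ _)⟩
    · rintro d ⟨v, hv, rfl⟩
      have h : ∀ v ∈ ({1, 2, 3} : Finset (Fin 9)), 2 ≤ T9.degree v := by decide
      exact le_of_le_of_eq (h v hv) (deg9 v _ _)
  · intro h
    exact absurd h (by decide)

/-- Containment of the tree from nine distinct vertices. -/
theorem contained_of {V : Type} {G : SimpleGraph V} (v : Fin 9 → V) (hv : Function.Injective v)
    (h01 : G.Adj (v 0) (v 1)) (h02 : G.Adj (v 0) (v 2)) (h03 : G.Adj (v 0) (v 3))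
    (h24 : G.Adj (v 2) (v 4)) (h35 : G.Adj (v 3) (v 5)) (h16 : G.Adj (v 1) (v 6))
    (h17 : G.Adj (v 1) (v 7)) (h18 : G.Adj (v 1) (v 8)) : T9.IsContained G := by
  have h : ∀ i j, (i, j) ∈ edges9 → G.Adj (v i) (v j) := by
    intro i j hij
    simp only [edges9, List.mem_cons, List.not_mem_nil, or_false, Prod.mk.injEq] at hij
    rcases hij with ⟨rfl, rfl⟩ | ⟨rfl, rfl⟩ | ⟨rfl, rfl⟩ | ⟨rfl, rfl⟩ | ⟨rfl, rfl⟩ | ⟨rfl, rfl⟩ |
      ⟨rfl, rfl⟩ | ⟨rfl, rfl⟩ <;> assumption
  refine ⟨⟨⟨v, ?_⟩, hv⟩⟩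
  intro i j hij
  rcases hij with hij | hij
  · exact h i j hij
  · exact (h j i hij).symm

/-- The centre of the neighbourhood argument: an embedded pattern `a - b`, `b - p - q`,
`b - p' - q'` with `a` of degree at least eight gives a copy of the tree. -/
theorem pattern {V : Type} [Fintype V] [DecidableEq V] {G : SimpleGraph V} [DecidableRel G.Adj]
    (hT : T9.Free G) {a b p q p' q' : V} (ha : 8 ≤ G.degree a) (hab : G.Adj a b)
    (hbp : G.Adj b p) (hbp' : G.Adj b p') (hpq : G.Adj p q) (hpq' : G.Adj p' q')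
    (h1 : p ≠ a) (h2 : q ≠ a) (h3 : q ≠ b) (h4 : p' ≠ a) (h5 : q' ≠ a) (h6 : q' ≠ b)
    (h7 : p ≠ p') (h8 : p ≠ q') (h9 : q ≠ p') (h10 : q ≠ q') : False := by
  have hcard : 2 < (G.neighborFinset a \ {b, p, q, p', q'}).card := by
    have h11 : ({b, p, q, p', q'} : Finset V).card ≤ 5 := Finset.card_le_five
    have h12 := Finset.le_card_sdiff ({b, p, q, p', q'} : Finset V) (G.neighborFinset a)
    rw [G.card_neighborFinset_eq_degree] at h12
    omega
  rw [Finset.two_lt_card_iff] at hcard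
  obtain ⟨l1, l2, l3, m1, m2, m3, n12, n13, n23⟩ := hcard
  simp only [Finset.mem_sdiff, mem_neighborFinset, Finset.mem_insert, Finset.mem_singleton,
    not_or] at m1 m2 m3
  apply hT
  have hab' : a ≠ b := hab.ne
  have hbp0 : b ≠ p := hbp.ne
  have hbp1 : b ≠ p' := hbp'.ne
  have hpq0 : p ≠ q := hpq.ne
  have hpq1 : p' ≠ q' := hpq'.ne
  have a1 : a ≠ l1 := m1.1.ne
  have a2 : a ≠ l2 := m2.1.ne
  have a3 : a ≠ l3 := m3.1.ne
  obtain ⟨m10, m11, m12, m13, m14, m15⟩ := m1
  obtain ⟨m20, m21, m22, m23, m24, m25⟩ := m2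
  obtain ⟨m30, m31, m32, m33, m34, m35⟩ := m3
  have hnd : ([b, a, p, p', q, q', l1, l2, l3] : List V).Nodup := by
    simp only [List.nodup_cons, List.mem_cons, List.not_mem_nil, or_false, not_or,
      not_false_eq_true, List.nodup_nil, and_true]
    refine ⟨⟨hab'.symm, hbp0, hbp1, h3.symm, h6.symm, Ne.symm m11, Ne.symm m21, Ne.symm m31⟩,
      ⟨h1.symm, h4.symm, h2.symm, h5.symm, a1, a2, a3⟩,
      ⟨h7, hpq0, h8, Ne.symm m12, Ne.symm m22, Ne.symm m32⟩,
      ⟨h9.symm, hpq1, Ne.symm m14, Ne.symm m24, Ne.symm m34⟩,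
      ⟨h10, Ne.symm m13, Ne.symm m23, Ne.symm m33⟩,
      ⟨Ne.symm m15, Ne.symm m25, Ne.symm m35⟩, ⟨n12, n13⟩, n23⟩
  exact contained_of (fun i : Fin 9 => [b, a, p, p', q, q', l1, l2, l3].get i)
    (List.nodup_iff_injective_get.mp hnd) hab.symm hbp hbp' hpq hpq' m10 m20 m30

/-- The tree is not contained in the join of two isolated vertices with a matching. -/
theorem T9_not_contained :
    ¬ T9.IsContained (join (⊥ : SimpleGraph (Fin 2)) (stars 9 2)) := by
  rintro ⟨φ⟩
  set J := join (⊥ : SimpleGraph (Fin 2)) (stars 9 2) with hJ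
  have hadj : ∀ i j, T9.Adj i j → J.Adj (φ i) (φ j) := fun i j h => φ.toHom.map_adj h
  have hinj : ∀ i j, φ i = φ j → i = j := fun i j h => φ.injective h
  have hll : ∀ i j : Fin 2, ¬ J.Adj (Sum.inl i) (Sum.inl j) := by
    intro i j h
    simp [hJ, join, completeBipartiteGraph] at h
  -- neighbours of a vertex of the second part
  have hrr : ∀ (j : Fin 9) (s : Fin 2) (z : Fin 2 ⊕ (Fin 9 × Fin 2)),
      J.Adj (Sum.inr (j, s)) z → z = Sum.inl 0 ∨ z = Sum.inl 1 ∨ z = Sum.inr (j, 1 - s) := by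
    rintro j s (z | ⟨j', s'⟩) h
    · fin_cases z
      · left; rfl
      · right; left; rfl
    · right; right
      have h1 : (stars 9 2).Adj (j, s) (j', s') := by
        simpa [hJ, join, completeBipartiteGraph] using h
      obtain ⟨h2, h3, _⟩ := h1
      simp only at h2 h3
      subst h2
      have h4 : ∀ s s' : Fin 2, s ≠ s' → s' = 1 - s := by decide
      rw [h4 s s' h3]
  -- the image of 1 is in the first part
  obtain ⟨i, hi⟩ : ∃ i, φ 1 = Sum.inl i := by
    rcases hφ : φ 1 with i | ⟨j, s⟩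
    · exact ⟨i, rfl⟩
    · exfalso
      have g0 := hadj 1 0 (by decide)
      have g6 := hadj 1 6 (by decide)
      have g7 := hadj 1 7 (by decide)
      have g8 := hadj 1 8 (by decide)
      rw [hφ] at g0 g6 g7 g8
      have e0 := hrr j s _ g0
      have e6 := hrr j s _ g6
      have e7 := hrr j s _ g7
      have e8 := hrr j s _ g8
      have n06 : φ 0 ≠ φ 6 := fun h => absurd (hinj _ _ h) (by decide)
      have n07 : φ 0 ≠ φ 7 := fun h => absurd (hinj _ _ h) (by decide)
      have n08 : φ 0 ≠ φ 8 := fun h => absurd (hinj _ _ h) (by decide)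
      have n67 : φ 6 ≠ φ 7 := fun h => absurd (hinj _ _ h) (by decide)
      have n68 : φ 6 ≠ φ 8 := fun h => absurd (hinj _ _ h) (by decide)
      have n78 : φ 7 ≠ φ 8 := fun h => absurd (hinj _ _ h) (by decide)
      rcases e0 with e0 | e0 | e0 <;> rcases e6 with e6 | e6 | e6 <;>
        rcases e7 with e7 | e7 | e7 <;> rcases e8 with e8 | e8 | e8 <;>
        simp only [e0, e6, e7, e8, ne_eq, not_true_eq_false] at n06 n07 n08 n67 n68 n78
  obtain ⟨j, s, hφ0⟩ : ∃ j s, φ 0 = Sum.inr (j, s) := by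
    rcases hφ : φ 0 with i' | ⟨j, s⟩
    · exfalso
      have g0 := hadj 0 1 (by decide)
      rw [hφ, hi] at g0
      exact hll _ _ g0
    · exact ⟨j, s, rfl⟩
  have e1 := hrr j s _ (by have := hadj 0 1 (by decide); rwa [hφ0] at this)
  have e2 := hrr j s _ (by have := hadj 0 2 (by decide); rwa [hφ0] at this)
  have e3 := hrr j s _ (by have := hadj 0 3 (by decide); rwa [hφ0] at this)
  have n12 : φ 1 ≠ φ 2 := fun h => absurd (hinj _ _ h) (by decide)
  have n13 : φ 1 ≠ φ 3 := fun h => absurd (hinj _ _ h) (by decide)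
  have n23 : φ 2 ≠ φ 3 := fun h => absurd (hinj _ _ h) (by decide)
  have hss0 : ∀ s : Fin 2, 1 - (1 - s) = s := by decide
  have hss := hss0 s
  -- the partner of `φ 0` is `φ 2` or `φ 3`
  have hcase : φ 2 = Sum.inr (j, 1 - s) ∨ φ 3 = Sum.inr (j, 1 - s) := by
    rcases e2 with e2 | e2 | e2
    · rcases e3 with e3 | e3 | e3
      · exact absurd (e2.trans e3.symm) n23
      · exfalso
        rcases e1 with e1 | e1 | e1
        · exact n12 (e1.trans e2.symm)
        · exact n13 (e1.trans e3.symm)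
        · rw [hi] at e1; exact absurd e1 (by simp)
      · exact Or.inr e3
    · rcases e3 with e3 | e3 | e3
      · exfalso
        rcases e1 with e1 | e1 | e1
        · exact n13 (e1.trans e3.symm)
        · exact n12 (e1.trans e2.symm)
        · rw [hi] at e1; exact absurd e1 (by simp)
      · exact absurd (e2.trans e3.symm) n23
      · exact Or.inr e3
    · exact Or.inl e2
  -- both remaining cases are impossible
  have key : ∀ (x y z : Fin 9), x ≠ 0 → x ≠ 1 → z ≠ 0 → z ≠ 1 → x ≠ z → y ≠ 0 → y ≠ 1 → y ≠ x →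
      y ≠ z → T9.Adj x y → φ x = Sum.inr (j, 1 - s) →
      (φ z = Sum.inl 0 ∨ φ z = Sum.inl 1 ∨ φ z = Sum.inr (j, 1 - s)) → False := by
    intro x y z hx0 hx1 hz0 hz1 hxz hy0 hy1 hyx hyz hxy hx hz
    have e := hrr j (1 - s) (φ y) (by have := hadj x y hxy; rwa [hx] at this)
    rw [hss] at e
    have n1 : φ y ≠ φ 1 := fun h => hy1 (hinj _ _ h)
    have n2 : φ y ≠ φ z := fun h => hyz (hinj _ _ h)
    have n3 : φ y ≠ φ 0 := fun h => hy0 (hinj _ _ h)
    have n4 : φ z ≠ φ x := fun h => hxz (hinj _ _ h).symm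
    have n5 : φ z ≠ φ 1 := fun h => hz1 (hinj _ _ h)
    rcases e with e | e | e
    · rcases hz with hz | hz | hz
      · exact n2 (e.trans hz.symm)
      · rcases e1 with e1 | e1 | e1
        · exact n1 (e.trans e1.symm)
        · exact n5 (hz.trans e1.symm)
        · rw [hi] at e1; exact absurd e1 (by simp)
      · exact n4 (hz.trans hx.symm)
    · rcases hz with hz | hz | hz
      · rcases e1 with e1 | e1 | e1
        · exact n5 (hz.trans e1.symm)
        · exact n1 (e.trans e1.symm)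
        · rw [hi] at e1; exact absurd e1 (by simp)
      · exact n2 (e.trans hz.symm)
      · exact n4 (hz.trans hx.symm)
    · exact n3 (e.trans hφ0.symm)
  rcases hcase with h | h
  · exact key 2 4 3 (by decide) (by decide) (by decide) (by decide) (by decide) (by decide)
      (by decide) (by decide) (by decide) (by decide) h e3
  · exact key 3 5 2 (by decide) (by decide) (by decide) (by decide) (by decide) (by decide)
      (by decide) (by decide) (by decide) (by decide) h e2

end Pool.Agent.H71.Spex
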