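import Mathlib
import Pool.Agent.H71.Spex.Tree

/-!
The eigenvector set-up and the basic structural facts.
-/

namespace Pool.Agent.H71.Spex

open SimpleGraph

/-- The standing assumptions: a `T9`-free graph with a normalised nonnegative eigenvector for the
eigenvalue `L ≥ 44`, whose largest entry is at `u`. -/
structure Setup {V : Type} [Fintype V] [DecidableEq V] (G : SimpleGraph V) [DecidableRel G.Adj]
    (x : V → ℝ) (L : ℝ) (u : V) : Prop where
  hT : T9.Free G
  x0 : ∀ v, 0 ≤ x v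
  x1 : ∀ v, x v ≤ 1
  xu : x u = 1
  eig : ∀ v, L * x v = ∑ w ∈ G.neighborFinset v, x w
  hL : 44 ≤ L

section

variable {V : Type} [Fintype V] [DecidableEq V] {G : SimpleGraph V} [DecidableRel G.Adj]
  {x : V → ℝ} {L : ℝ} {u : V}

theorem exists_new_nbr {c : V} (hc : 8 ≤ G.degree c) (S : Finset V) (hS : S.card ≤ 7) :
    ∃ y, G.Adj c y ∧ y ∉ S := by
  have h1 := Finset.le_card_sdiff S (G.neighborFinset c)
  rw [G.card_neighborFinset_eq_degree] at h1
  have h2 : 0 < (G.neighborFinset c \ S).card := by omega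
  obtain ⟨y, hy⟩ := Finset.card_pos.mp h2
  rw [Finset.mem_sdiff, mem_neighborFinset] at hy
  exact ⟨y, hy.1, hy.2⟩

theorem f2 (hT : T9.Free G) {a b c p q : V} (ha : 8 ≤ G.degree a) (hab : G.Adj a b)
    (hbc : G.Adj b c) (hca : c ≠ a) (hc : 8 ≤ G.degree c) (hbp : G.Adj b p) (hpa : p ≠ a)
    (hpc : p ≠ c) (hpq : G.Adj p q) : q = a ∨ q = b ∨ q = c := by
  by_contra hcon
  simp only [not_or] at hcon
  obtain ⟨hqa, hqb, hqc⟩ := hcon
  obtain ⟨y, hy, hyS⟩ := exists_new_nbr hc ({a, b, p, q} : Finset V)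
    (le_trans Finset.card_le_four (by norm_num))
  simp only [Finset.mem_insert, Finset.mem_singleton, not_or] at hyS
  obtain ⟨y1, y2, y3, y4⟩ := hyS
  exact pattern hT ha hab hbp hbc hpq hy hpa hqa hqb hca y1 y2 hpc (Ne.symm y3) hqc (Ne.symm y4)

theorem f2_deg (hT : T9.Free G) {a b c p : V} (ha : 8 ≤ G.degree a) (hab : G.Adj a b)
    (hbc : G.Adj b c) (hca : c ≠ a) (hc : 8 ≤ G.degree c) (hbp : G.Adj b p) (hpa : p ≠ a)
    (hpc : p ≠ c) : G.degree p ≤ 3 := by
  rw [← G.card_neighborFinset_eq_degree]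
  have h : G.neighborFinset p ⊆ {a, b, c} := by
    intro q hq
    rw [mem_neighborFinset] at hq
    simp only [Finset.mem_insert, Finset.mem_singleton]
    exact f2 hT ha hab hbc hca hc hbp hpa hpc hq
  exact le_trans (Finset.card_le_card h) Finset.card_le_three

namespace Setup

theorem deg_u (s : Setup G x L u) : 44 ≤ G.degree u := by
  have h := s.eig u
  rw [s.xu, mul_one] at h
  have h1 : ∑ w ∈ G.neighborFinset u, x w ≤ ∑ _w ∈ G.neighborFinset u, (1 : ℝ) :=
    Finset.sum_le_sum fun w _ => s.x1 w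
  rw [Finset.sum_const, G.card_neighborFinset_eq_degree, nsmul_eq_mul, mul_one] at h1
  have h2 := s.hL
  have h3 : (44 : ℝ) ≤ (G.degree u : ℝ) := by linarith
  exact_mod_cast h3

theorem deg_le (s : Setup G x L u) (v : V) {k : ℕ} (hv : G.degree v ≤ k) : L * x v ≤ k := by
  rw [s.eig v]
  have h1 : ∑ w ∈ G.neighborFinset v, x w ≤ ∑ _w ∈ G.neighborFinset v, (1 : ℝ) :=
    Finset.sum_le_sum fun w _ => s.x1 w
  rw [Finset.sum_const, G.card_neighborFinset_eq_degree, nsmul_eq_mul, mul_one] at h1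
  have h2 : (G.degree v : ℝ) ≤ k := by exact_mod_cast hv
  linarith

theorem sub_le (s : Setup G x L u) {v : V} {S : Finset V} (h : ∀ w, G.Adj v w → w ∈ S) :
    L * x v ≤ ∑ w ∈ S, x w := by
  rw [s.eig v]
  refine Finset.sum_le_sum_of_subset_of_nonneg ?_ fun w _ _ => s.x0 w
  intro w hw
  rw [mem_neighborFinset] at hw
  exact h w hw

theorem sum_insert_le (s : Setup G x L u) (a : V) (S : Finset V) :
    ∑ w ∈ insert a S, x w ≤ x a + ∑ w ∈ S, x w := by
  by_cases h : a ∈ S
  · rw [Finset.insert_eq_of_mem h]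
    have := s.x0 a
    linarith
  · rw [Finset.sum_insert h]

theorem sum_two (s : Setup G x L u) (a b : V) : ∑ w ∈ ({a, b} : Finset V), x w ≤ x a + x b := by
  have := s.sum_insert_le a {b}
  rwa [Finset.sum_singleton] at this

theorem sum_three (s : Setup G x L u) (a b c : V) :
    ∑ w ∈ ({a, b, c} : Finset V), x w ≤ x a + x b + x c := by
  have h1 := s.sum_insert_le a {b, c}
  have h2 := s.sum_two b c
  linarith

/-- The square of the eigenvalue. -/
theorem sq_eq (s : Setup G x L u) : L ^ 2 = ∑ b ∈ G.neighborFinset u, L * x b := by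
  have h := s.eig u
  rw [s.xu, mul_one] at h
  rw [← Finset.mul_sum, ← h, sq]

theorem sum_nbr_u (s : Setup G x L u) : ∑ b ∈ G.neighborFinset u, x b = L := by
  have h := s.eig u
  rw [s.xu, mul_one] at h
  exact h.symm

end Setup

end

end Pool.Agent.H71.Spex
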