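import Mathlib
import Pool.Agent.H71.Spex.Basic

/-!
The case in which all neighbours of the top vertex have small degree.
-/

namespace Pool.Agent.H71.Spex

open SimpleGraph

section

variable {V : Type} [Fintype V] [DecidableEq V] {G : SimpleGraph V} [DecidableRel G.Adj]
  {x : V → ℝ} {L : ℝ} {u : V}

namespace Setup

/-- Bound for a vertex of small degree, `t = 1 / L`. -/
theorem light (s : Setup G x L u) {t : ℝ} (ht : t * L = 1) (ht0 : 0 ≤ t) {v : V}
    (hv : G.degree v ≤ 7) : x v ≤ 7 * t := by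
  have h := s.deg_le v hv
  push_cast at h
  have h1 : t * (L * x v) ≤ t * 7 := mul_le_mul_of_nonneg_left h ht0
  rw [← mul_assoc, ht, one_mul] at h1
  linarith

/-- A neighbour `b` of `u` of small degree none of whose other neighbours has large degree. -/
theorem boundR (s : Setup G x L u) {t : ℝ} (ht : t * L = 1) (ht0 : 0 ≤ t) {b : V}
    (hub : G.Adj u b) (hb : G.degree b ≤ 7)
    (hR : ∀ w, G.Adj b w → w ≠ u → G.degree w ≤ 7) : L * x b ≤ 1 + 42 * t := by
  have hmem : u ∈ G.neighborFinset b := by rw [mem_neighborFinset]; exact hub.symm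
  rw [s.eig b, ← Finset.add_sum_erase _ _ hmem, s.xu]
  have h1 : ∑ w ∈ (G.neighborFinset b).erase u, x w ≤
      ((G.neighborFinset b).erase u).card • (7 * t) := by
    refine Finset.sum_le_card_nsmul _ _ _ fun w hw => ?_
    rw [Finset.mem_erase, mem_neighborFinset] at hw
    exact s.light ht ht0 (hR w hw.2 hw.1)
  have h2 : ((G.neighborFinset b).erase u).card ≤ 6 := by
    rw [Finset.card_erase_of_mem hmem, G.card_neighborFinset_eq_degree]
    omega
  rw [nsmul_eq_mul] at h1
  have h3 : (((G.neighborFinset b).erase u).card : ℝ) ≤ 6 := by exact_mod_cast h2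
  have h4 : (((G.neighborFinset b).erase u).card : ℝ) * (7 * t) ≤ 6 * (7 * t) :=
    mul_le_mul_of_nonneg_right h3 (by linarith)
  linarith

/-- Splitting off two neighbours. -/
theorem split_two (s : Setup G x L u) {b c : V} (hub : G.Adj u b) (hbc : G.Adj b c)
    (hcu : c ≠ u) {M : ℝ}
    (hM : ∀ w, G.Adj b w → w ≠ u → w ≠ c → x w ≤ M) :
    L * x b ≤ 2 + ((G.neighborFinset b \ {u, c}).card : ℝ) * M := by
  have hsub : ({u, c} : Finset V) ⊆ G.neighborFinset b := by
    intro w hw
    rw [Finset.mem_insert, Finset.mem_singleton] at hw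
    rw [mem_neighborFinset]
    rcases hw with rfl | rfl
    · exact hub.symm
    · exact hbc
  rw [s.eig b, ← Finset.sum_sdiff hsub]
  have h1 : ∑ w ∈ G.neighborFinset b \ {u, c}, x w ≤
      (G.neighborFinset b \ {u, c}).card • M := by
    refine Finset.sum_le_card_nsmul _ _ _ fun w hw => ?_
    simp only [Finset.mem_sdiff, mem_neighborFinset, Finset.mem_insert, Finset.mem_singleton,
      not_or] at hw
    exact hM w hw.1 hw.2.1 hw.2.2
  rw [nsmul_eq_mul] at h1
  have h2 := s.sum_two u c
  have := s.x1 u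
  have := s.x1 c
  linarith

theorem boundP (s : Setup G x L u) {t : ℝ} (ht : t * L = 1) (ht0 : 0 ≤ t) {b c : V}
    (hub : G.Adj u b) (hb : G.degree b ≤ 7) (hbc : G.Adj b c) (hcu : c ≠ u)
    (hc : 8 ≤ G.degree c) (hcard : (G.neighborFinset b \ {u, c}).card ≤ 1) :
    L * x b ≤ 2 + 2 * t + 7 * t ^ 2 := by
  have hu8 : 8 ≤ G.degree u := le_trans (by norm_num) s.deg_u
  have h1 := s.split_two hub hbc hcu (M := t * (2 + 7 * t)) (by
    intro w hbw hwu hwc
    have h2 : L * x w ≤ ∑ q ∈ ({u, b, c} : Finset V), x q := by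
      apply s.sub_le
      intro q hq
      have := f2 s.hT hu8 hub hbc hcu hc hbw hwu hwc hq
      simpa using this
    have h3 := s.sum_three u b c
    have h4 := s.light ht ht0 hb
    have h5 := s.x1 u
    have h6 := s.x1 c
    have h7 : L * x w ≤ 2 + 7 * t := by linarith
    have h8 : t * (L * x w) ≤ t * (2 + 7 * t) := mul_le_mul_of_nonneg_left h7 ht0
    rw [← mul_assoc, ht, one_mul] at h8
    exact h8)
  have h2 : ((G.neighborFinset b \ {u, c}).card : ℝ) ≤ 1 := by exact_mod_cast hcard
  have h3 : 0 ≤ t * (2 + 7 * t) := by positivity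
  have h4 := mul_le_mul_of_nonneg_right h2 h3
  nlinarith

/-- The structure of the outer neighbours of a neighbour `b` of `u` with a heavy neighbour `c`
and at least two further neighbours. -/
theorem not_both (s : Setup G x L u) {b c p : V} (hub : G.Adj u b) (hbc : G.Adj b c) (hcu : c ≠ u)
    (hc : 8 ≤ G.degree c) (hcard : 2 ≤ (G.neighborFinset b \ {u, c}).card) (hbp : G.Adj b p)
    : ¬ (G.Adj p u ∧ G.Adj p c) := by
  rintro ⟨h1, h2⟩
  have hu8 : 8 ≤ G.degree u := le_trans (by norm_num) s.deg_u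
  obtain ⟨p', hp'⟩ : ∃ p', p' ∈ (G.neighborFinset b \ {u, c}).erase p := by
    apply Finset.card_pos.mp
    have := Finset.pred_card_le_card_erase (s := G.neighborFinset b \ {u, c}) (a := p)
    omega
  simp only [Finset.mem_erase, Finset.mem_sdiff, mem_neighborFinset, Finset.mem_insert,
    Finset.mem_singleton, not_or] at hp'
  obtain ⟨a1, a2, a3, a4⟩ := hp'
  obtain ⟨y, hy, hyS⟩ := exists_new_nbr hc ({u, p, b, p'} : Finset V)
    (le_trans Finset.card_le_four (by norm_num))
  simp only [Finset.mem_insert, Finset.mem_singleton, not_or] at hyS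
  obtain ⟨b1, b2, b3, b4⟩ := hyS
  exact pattern s.hT hu8 h1.symm hbp.symm h2 a2 hy hub.ne.symm a3 a1 hcu b1 b2 hbc.ne
    (Ne.symm b3) a4 (Ne.symm b4)

theorem boundQ (s : Setup G x L u) {t : ℝ} (ht : t * L = 1) (ht0 : 0 ≤ t) {b c : V}
    (hub : G.Adj u b) (hb : G.degree b ≤ 7) (hbc : G.Adj b c) (hcu : c ≠ u)
    (hc : 8 ≤ G.degree c) (hcard : 2 ≤ (G.neighborFinset b \ {u, c}).card) :
    L * x b ≤ 2 + 5 * t + 35 * t ^ 2 := by
  have hu8 : 8 ≤ G.degree u := le_trans (by norm_num) s.deg_u
  have h1 := s.split_two hub hbc hcu (M := t * (1 + 7 * t)) (by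
    intro w hbw hwu hwc
    have hnot := s.not_both hub hbc hcu hc hcard hbw
    have h2 : L * x w ≤ x b + 1 := by
      by_cases hwu' : G.Adj w u
      · have h3 : L * x w ≤ ∑ q ∈ ({b, u} : Finset V), x q := by
          apply s.sub_le
          intro q hq
          rcases f2 s.hT hu8 hub hbc hcu hc hbw hwu hwc hq with rfl | rfl | rfl
          · simp
          · simp
          · exact absurd ⟨hwu', hq⟩ hnot
        have h4 := s.sum_two b u
        have := s.x1 u
        linarith
      · have h3 : L * x w ≤ ∑ q ∈ ({b, c} : Finset V), x q := by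
          apply s.sub_le
          intro q hq
          rcases f2 s.hT hu8 hub hbc hcu hc hbw hwu hwc hq with rfl | rfl | rfl
          · exact absurd hq hwu'
          · simp
          · simp
        have h4 := s.sum_two b c
        have := s.x1 c
        linarith
    have h4 := s.light ht ht0 hb
    have h7 : L * x w ≤ 1 + 7 * t := by linarith
    have h8 : t * (L * x w) ≤ t * (1 + 7 * t) := mul_le_mul_of_nonneg_left h7 ht0
    rw [← mul_assoc, ht, one_mul] at h8
    exact h8)
  have h2 : (G.neighborFinset b \ {u, c}).card ≤ 5 := by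
    have hsub : ({u, c} : Finset V) ⊆ G.neighborFinset b := by
      intro w hw
      rw [Finset.mem_insert, Finset.mem_singleton] at hw
      rw [mem_neighborFinset]
      rcases hw with rfl | rfl
      · exact hub.symm
      · exact hbc
    rw [Finset.card_sdiff_of_subset hsub, Finset.card_pair (Ne.symm hcu),
      G.card_neighborFinset_eq_degree]
    omega
  have h2' : ((G.neighborFinset b \ {u, c}).card : ℝ) ≤ 5 := by exact_mod_cast h2
  have h3 : 0 ≤ t * (1 + 7 * t) := by positivity
  have h4 := mul_le_mul_of_nonneg_right h2' h3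
  nlinarith

open Classical in
/-- No neighbour of `u` has large degree. -/
theorem caseA (s : Setup G x L u) (hl : ∀ b, G.Adj u b → G.degree b ≤ 7) :
    L ^ 2 ≤ 2 * (Fintype.card V : ℝ) + L + 4 := by
  have hu8 : 8 ≤ G.degree u := le_trans (by norm_num) s.deg_u
  have hL := s.hL
  have hL0 : 0 < L := by linarith
  set t : ℝ := 1 / L with htdef
  have ht : t * L = 1 := by rw [htdef]; field_simp
  have ht0 : 0 ≤ t := by positivity
  have ht44 : t ≤ 1 / 44 := one_div_le_one_div_of_le (by norm_num) hL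
  set N := G.neighborFinset u with hN
  set R := N.filter (fun b => ∀ w, G.Adj b w → w ≠ u → G.degree w ≤ 7) with hR
  set Q := N.filter (fun b => ∃ c, G.Adj b c ∧ c ≠ u ∧ 8 ≤ G.degree c ∧
    2 ≤ (G.neighborFinset b \ {u, c}).card) with hQ
  set P := (N \ R) \ Q with hP
  set Z := (insert u N)ᶜ with hZ
  have memN : ∀ b, b ∈ N ↔ G.Adj u b := fun b => by rw [hN, mem_neighborFinset]
  -- disjointness
  have hQR : Disjoint Q R := by
    rw [Finset.disjoint_left]
    intro b hbQ hbR
    rw [hQ, Finset.mem_filter] at hbQ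
    rw [hR, Finset.mem_filter] at hbR
    obtain ⟨_, c, hbc, hcu, hc, _⟩ := hbQ
    have := hbR.2 c hbc hcu
    omega
  have hRN : R ⊆ N := Finset.filter_subset _ _
  have hQN : Q ⊆ N := Finset.filter_subset _ _
  have hQNR : Q ⊆ N \ R := by
    intro b hb
    rw [Finset.mem_sdiff]
    exact ⟨hQN hb, Finset.disjoint_left.mp hQR hb⟩
  have hsumN : ∀ g : V → ℝ, ∑ b ∈ N, g b = ∑ b ∈ P, g b + ∑ b ∈ Q, g b + ∑ b ∈ R, g b := by
    intro g
    rw [← Finset.sum_sdiff hRN, ← Finset.sum_sdiff hQNR]
  -- the bounds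
  have bR : ∀ b ∈ R, L * x b ≤ 1 + 42 * t := by
    intro b hb
    rw [hR, Finset.mem_filter, memN] at hb
    exact s.boundR ht ht0 hb.1 (hl b hb.1) hb.2
  have bQ : ∀ b ∈ Q, L * x b ≤ 2 + 5 * t + 35 * t ^ 2 := by
    intro b hb
    rw [hQ, Finset.mem_filter, memN] at hb
    obtain ⟨hub, c, hbc, hcu, hc, hcard⟩ := hb
    exact s.boundQ ht ht0 hub (hl b hub) hbc hcu hc hcard
  have bP : ∀ b ∈ P, L * x b ≤ 2 + 2 * t + 7 * t ^ 2 := by
    intro b hb
    rw [hP, Finset.mem_sdiff, Finset.mem_sdiff] at hb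
    obtain ⟨⟨hbN, hbR⟩, hbQ⟩ := hb
    have hub := (memN b).mp hbN
    rw [hR, Finset.mem_filter] at hbR
    rw [hQ, Finset.mem_filter] at hbQ
    have h1 : ¬ ∀ w, G.Adj b w → w ≠ u → G.degree w ≤ 7 := fun h => hbR ⟨hbN, h⟩
    push Not at h1
    obtain ⟨c, hbc, hcu, hc⟩ := h1
    refine s.boundP ht ht0 hub (hl b hub) hbc hcu (by omega) ?_
    by_contra hcard
    exact hbQ ⟨hbN, c, hbc, hcu, by omega, by omega⟩
  -- the injection
  have hex : ∀ b ∈ Q, ∃ p, G.Adj b p ∧ (∀ q, G.Adj p q → q = u ∨ q = b ∨ 8 ≤ G.degree q) ∧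
      p ∈ R ∪ Z := by
    intro b hb
    rw [hQ, Finset.mem_filter, memN] at hb
    obtain ⟨hub, c, hbc, hcu, hc, hcard⟩ := hb
    obtain ⟨p, hp⟩ : ∃ p, p ∈ G.neighborFinset b \ {u, c} := Finset.card_pos.mp (by omega)
    simp only [Finset.mem_sdiff, mem_neighborFinset, Finset.mem_insert, Finset.mem_singleton,
      not_or] at hp
    obtain ⟨hbp, hpu, hpc⟩ := hp
    have hf2 : ∀ q, G.Adj p q → q = u ∨ q = b ∨ q = c := fun q hq =>
      f2 s.hT hu8 hub hbc hcu hc hbp hpu hpc hq
    have hnot := s.not_both hub hbc hcu hc hcard hbp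
    refine ⟨p, hbp, ?_, ?_⟩
    · intro q hq
      rcases hf2 q hq with h | h | h
      · exact Or.inl h
      · exact Or.inr (Or.inl h)
      · right; right; rw [h]; exact hc
    · rw [Finset.mem_union]
      by_cases hup : G.Adj u p
      · left
        rw [hR, Finset.mem_filter, memN]
        refine ⟨hup, ?_⟩
        intro w hw hwu
        rcases hf2 w hw with h | h | h
        · exact absurd h hwu
        · rw [h]; exact hl b hub
        · rw [h] at hw; exact absurd ⟨hup.symm, hw⟩ hnot
      · right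
        rw [hZ, Finset.mem_compl, Finset.mem_insert, memN]
        rintro (h | h)
        · exact hpu h
        · exact hup h
  choose! π hπ1 hπ2 hπ3 using hex
  have hcardQ : Q.card ≤ (R ∪ Z).card := by
    apply Finset.card_le_card_of_injOn π (fun b hb => hπ3 b hb)
    intro b hb b' hb' heq
    have h1 := hπ1 b' hb'
    rw [← heq] at h1
    have hub' : G.Adj u b' := (memN b').mp (hQN hb')
    rcases hπ2 b hb b' h1.symm with h | h | h
    · exact absurd h hub'.ne.symm
    · exact h.symm
    · have := hl b' hub'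
      omega
  have hRZ : Disjoint R Z := by
    rw [Finset.disjoint_left]
    intro b hb hbZ
    rw [hZ, Finset.mem_compl, Finset.mem_insert] at hbZ
    exact hbZ (Or.inr (hRN hb))
  rw [Finset.card_union_of_disjoint hRZ] at hcardQ
  have hcardN : N.card = P.card + Q.card + R.card := by
    have h1 := Finset.card_sdiff_add_card_eq_card hRN
    have h2 := Finset.card_sdiff_add_card_eq_card hQNR
    rw [← hP] at h2
    omega
  have hcardV : Fintype.card V = 1 + N.card + Z.card := by
    have h1 := Finset.card_add_card_compl (insert u N)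
    rw [← hZ] at h1
    have h2 : u ∉ N := by rw [memN]; exact G.irrefl
    rw [Finset.card_insert_of_notMem h2] at h1
    omega
  -- conclusion
  have hsq : L ^ 2 ≤ (P.card : ℝ) * (2 + 2 * t + 7 * t ^ 2) + (Q.card : ℝ) * (2 + 5 * t + 35 * t ^ 2)
      + (R.card : ℝ) * (1 + 42 * t) := by
    rw [s.sq_eq, hsumN]
    have h1 := Finset.sum_le_card_nsmul _ _ _ bP
    have h2 := Finset.sum_le_card_nsmul _ _ _ bQ
    have h3 := Finset.sum_le_card_nsmul _ _ _ bR
    rw [nsmul_eq_mul] at h1 h2 h3
    linarith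
  have hq : (Q.card : ℝ) ≤ R.card + Z.card := by exact_mod_cast hcardQ
  have hn : (Fintype.card V : ℝ) = 1 + (P.card + Q.card + R.card) + Z.card := by
    rw [hcardV, hcardN]; push_cast; ring
  have hp0 : (0 : ℝ) ≤ P.card := Nat.cast_nonneg _
  have hq0 : (0 : ℝ) ≤ Q.card := Nat.cast_nonneg _
  have hr0 : (0 : ℝ) ≤ R.card := Nat.cast_nonneg _
  have hz0 : (0 : ℝ) ≤ Z.card := Nat.cast_nonneg _
  generalize (P.card : ℝ) = p at *
  generalize (Q.card : ℝ) = q at *
  generalize (R.card : ℝ) = r at *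
  generalize (Z.card : ℝ) = z at *
  have e1 : q * (3 * t + 28 * t ^ 2) ≤ (r + z) * (3 * t + 28 * t ^ 2) :=
    mul_le_mul_of_nonneg_right hq (by positivity)
  have ht2 : t ^ 2 ≤ t / 44 := by nlinarith
  have e2 : r * (45 * t + 28 * t ^ 2) ≤ r * (1 + 2 * t + 7 * t ^ 2) := by
    apply mul_le_mul_of_nonneg_left _ hr0
    nlinarith
  have e3 : z * (3 * t + 28 * t ^ 2) ≤ z * (2 + 2 * t + 7 * t ^ 2) := by
    apply mul_le_mul_of_nonneg_left _ hz0
    nlinarith
  have e4 : L ^ 2 ≤ (p + q + r + z) * (2 + 2 * t + 7 * t ^ 2) := by nlinarith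
  set n : ℝ := (Fintype.card V : ℝ) with hndef
  have e5 : p + q + r + z ≤ n := by linarith
  have hn0 : 0 ≤ n := by linarith
  have e6 : L ^ 2 ≤ n * (2 + 2 * t + 7 * t ^ 2) :=
    le_trans e4 (mul_le_mul_of_nonneg_right e5 (by positivity))
  by_cases hcase : L ^ 2 ≤ 2 * n
  · linarith
  · push Not at hcase
    have e7 : n * t ≤ L / 2 := by
      have h1 : 2 * n * t ≤ L ^ 2 * t := mul_le_mul_of_nonneg_right hcase.le ht0
      have h2 : L ^ 2 * t = L := by
        rw [sq, mul_assoc, mul_comm L t, ht, mul_one]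
      rw [h2] at h1
      linarith
    have e8 : n * t ^ 2 ≤ 1 / 2 := by
      have h1 : n * t * t ≤ L / 2 * t := mul_le_mul_of_nonneg_right e7 ht0
      have h2 : L / 2 * t = 1 / 2 := by
        rw [div_mul_eq_mul_div, mul_comm L t, ht]
      rw [h2] at h1
      nlinarith
    nlinarith

end Setup

end

end Pool.Agent.H71.Spex
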