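import Mathlib
import Pool.Agent.H71.Spex.Basic

/-!
The cases in which the top vertex has a neighbour of large degree.
-/

namespace Pool.Agent.H71.Spex

open SimpleGraph

section

variable {V : Type} [Fintype V] [DecidableEq V] {G : SimpleGraph V} [DecidableRel G.Adj]
  {x : V → ℝ} {L : ℝ} {u : V}

omit [DecidableEq V] in
theorem deg_add_one_le (G : SimpleGraph V) [DecidableRel G.Adj] (u : V) :
    G.degree u + 1 ≤ Fintype.card V := by
  have := G.degree_lt_card_verts u
  omega

omit [Fintype V] in
theorem sum_ite_eq_le (S : Finset V) (a : V) :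
    ∑ b ∈ S, (if b = a then (7 : ℝ) else 0) ≤ 7 := by
  rw [Finset.sum_ite_eq' S a]
  split_ifs <;> norm_num

omit [DecidableEq V] in
theorem sum_ite_adj_le (S : Finset V) (a : V) (ha : G.degree a ≤ 7) :
    ∑ b ∈ S, (if G.Adj a b then (1 : ℝ) else 0) ≤ 7 := by
  have h1 : ∑ b ∈ S, (if G.Adj a b then (1 : ℝ) else 0) ≤
      ∑ b, (if G.Adj a b then (1 : ℝ) else 0) :=
    Finset.sum_le_sum_of_subset_of_nonneg (Finset.subset_univ _) fun b _ _ => by
      split_ifs <;> norm_num
  have h3 : ∑ b, (if G.Adj a b then (1 : ℝ) else 0) = G.degree a := by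
    rw [← Finset.sum_filter, ← G.neighborFinset_eq_filter, Finset.sum_const,
      G.card_neighborFinset_eq_degree, nsmul_eq_mul, mul_one]
  have h2 : (G.degree a : ℝ) ≤ 7 := by exact_mod_cast ha
  linarith

namespace Setup

/-- Two neighbours of large degree. -/
theorem caseB1 (s : Setup G x L u) {h c : V} (huh : G.Adj u h) (huc : G.Adj u c) (hhc : h ≠ c)
    (hh : 8 ≤ G.degree h) (hc : 8 ≤ G.degree c) :
    L ^ 2 ≤ 2 * (Fintype.card V : ℝ) + L := by
  have hu8 : 8 ≤ G.degree u := le_trans (by norm_num) s.deg_u
  -- the other neighbours of `u`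
  have hp : ∀ p, G.Adj u p → p ≠ h → p ≠ c → ¬ (G.Adj p h ∧ G.Adj p c) := by
    rintro p hup hph hpc ⟨h1, h2⟩
    obtain ⟨y, hy, hyS⟩ := exists_new_nbr hh ({u, p, c} : Finset V)
      (le_trans Finset.card_le_three (by norm_num))
    obtain ⟨y', hy', hyS'⟩ := exists_new_nbr hc ({u, p, h, y} : Finset V)
      (le_trans Finset.card_le_four (by norm_num))
    simp only [Finset.mem_insert, Finset.mem_singleton, not_or] at hyS hyS'
    obtain ⟨a1, a2, a3⟩ := hyS
    obtain ⟨b1, b2, b3, b4⟩ := hyS'
    exact pattern s.hT hu8 hup h1 h2 hy hy' huh.ne.symm a1 a2 huc.ne.symm b1 b2 hhc (Ne.symm b3)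
      a3 (Ne.symm b4)
  have hpb : ∀ p, G.Adj u p → p ≠ h → p ≠ c → L * x p ≤ 2 := by
    intro p hup hph hpc
    have hN : ∀ q, G.Adj p q → q = h ∨ q = u ∨ q = c := fun q hq =>
      f2 s.hT hh huh.symm huc (Ne.symm hhc) hc hup hph hpc hq
    by_cases h1 : G.Adj p h
    · have h2 : ¬ G.Adj p c := fun h2 => hp p hup hph hpc ⟨h1, h2⟩
      have h3 : L * x p ≤ ∑ w ∈ ({h, u} : Finset V), x w := by
        apply s.sub_le
        intro q hq
        rcases hN q hq with rfl | rfl | rfl
        · simp
        · simp
        · exact absurd hq h2
      have h4 := s.sum_two h u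
      have := s.x1 h
      have := s.x1 u
      linarith
    · have h3 : L * x p ≤ ∑ w ∈ ({u, c} : Finset V), x w := by
        apply s.sub_le
        intro q hq
        rcases hN q hq with rfl | rfl | rfl
        · exact absurd hq h1
        · simp
        · simp
      have h4 := s.sum_two u c
      have := s.x1 c
      have := s.x1 u
      linarith
  -- split the square
  have hmem_h : h ∈ G.neighborFinset u := by rwa [mem_neighborFinset]
  have hmem_c : c ∈ (G.neighborFinset u).erase h := by
    rw [Finset.mem_erase, mem_neighborFinset]; exact ⟨Ne.symm hhc, huc⟩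
  have hsplit : L ^ 2 = L * x h + L * x c + ∑ b ∈ ((G.neighborFinset u).erase h).erase c, L * x b := by
    rw [s.sq_eq, ← Finset.add_sum_erase _ _ hmem_h, ← Finset.add_sum_erase _ _ hmem_c]
    ring
  have hcard : (((G.neighborFinset u).erase h).erase c).card = G.degree u - 2 := by
    rw [Finset.card_erase_of_mem hmem_c, Finset.card_erase_of_mem hmem_h,
      G.card_neighborFinset_eq_degree]
    omega
  have hrest : ∑ b ∈ ((G.neighborFinset u).erase h).erase c, L * x b ≤ 2 * ((G.degree u : ℝ) - 2) := by
    have h1 : ∑ b ∈ ((G.neighborFinset u).erase h).erase c, L * x b ≤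
        ∑ _b ∈ ((G.neighborFinset u).erase h).erase c, (2 : ℝ) := by
      refine Finset.sum_le_sum fun b hb => ?_
      rw [Finset.mem_erase, Finset.mem_erase, mem_neighborFinset] at hb
      exact hpb b hb.2.2 hb.2.1 hb.1
    rw [Finset.sum_const, hcard, nsmul_eq_mul] at h1
    rw [Nat.cast_sub (by omega)] at h1
    push_cast at h1
    linarith
  -- the two large neighbours
  have hsum : L * x h + L * x c ≤ 4 + L + 2 * ((Fintype.card V : ℝ) - 1 - G.degree u) := by
    have e1 : L * x h = ∑ w, if G.Adj h w then x w else 0 := by
      rw [s.eig h, G.neighborFinset_eq_filter, Finset.sum_filter]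
    have e2 : L * x c = ∑ w, if G.Adj c w then x w else 0 := by
      rw [s.eig c, G.neighborFinset_eq_filter, Finset.sum_filter]
    have e3 : L = ∑ w, if G.Adj u w then x w else 0 := by
      rw [← s.sum_nbr_u, G.neighborFinset_eq_filter, Finset.sum_filter]
    have e4 : ((Fintype.card V : ℝ) - 1 - G.degree u) =
        ∑ w, (1 - (if w = u then 1 else 0) - (if G.Adj u w then 1 else 0) : ℝ) := by
      rw [Finset.sum_sub_distrib, Finset.sum_sub_distrib, Finset.sum_ite_eq' Finset.univ u,
        Finset.sum_const, ← Finset.sum_filter, ← G.neighborFinset_eq_filter, Finset.sum_const,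
        G.card_neighborFinset_eq_degree]
      simp
    have e5 : (4 : ℝ) = ∑ w, ((if w = u then 2 else 0) + (if w = h then 1 else 0) +
        (if w = c then 1 else 0) : ℝ) := by
      rw [Finset.sum_add_distrib, Finset.sum_add_distrib, Finset.sum_ite_eq' Finset.univ u,
        Finset.sum_ite_eq' Finset.univ h, Finset.sum_ite_eq' Finset.univ c]
      simp
      norm_num
    suffices key : ∑ w, ((if G.Adj h w then x w else 0) + (if G.Adj c w then x w else 0)) ≤
        ∑ w, (((if w = u then 2 else 0) + (if w = h then 1 else 0) + (if w = c then 1 else 0)) +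
          (if G.Adj u w then x w else 0) +
          2 * (1 - (if w = u then 1 else 0) - (if G.Adj u w then 1 else 0)) : ℝ) by
      rw [Finset.sum_add_distrib, ← e1, ← e2] at key
      rw [Finset.sum_add_distrib, Finset.sum_add_distrib, ← Finset.mul_sum, ← e3, ← e4,
        ← e5] at key
      exact key
    refine Finset.sum_le_sum fun w _ => ?_
    have hx0 := s.x0 w
    have hx1 := s.x1 w
    by_cases hwu : w = u
    · subst hwu
      have n1 : ¬ G.Adj w w := G.irrefl
      split_ifs <;> linarith
    · by_cases huw : G.Adj u w
      · by_cases hwh : w = h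
        · subst hwh
          have n1 : ¬ G.Adj w w := G.irrefl
          split_ifs <;> linarith
        · by_cases hwc : w = c
          · subst hwc
            have n1 : ¬ G.Adj w w := G.irrefl
            split_ifs <;> linarith
          · have h1 := hp w huw hwh hwc
            by_cases g1 : G.Adj h w
            · have g2 : ¬ G.Adj c w := fun g2 => h1 ⟨g1.symm, g2.symm⟩
              rw [if_pos g1, if_neg g2, if_neg hwu, if_neg hwh, if_neg hwc, if_pos huw,
                if_pos huw, if_neg hwu]
              linarith
            · rw [if_neg g1, if_neg hwu, if_neg hwh, if_neg hwc, if_pos huw, if_pos huw]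
              split_ifs <;> linarith
      · rw [if_neg hwu, if_neg huw, if_neg huw]
        have n1 : w ≠ h := fun e => huw (e ▸ huh)
        have n2 : w ≠ c := fun e => huw (e ▸ huc)
        rw [if_neg n1, if_neg n2, if_neg hwu]
        split_ifs <;> linarith
  rw [hsplit]
  linarith

/-- Exactly one neighbour of large degree. -/
theorem caseB2 (s : Setup G x L u) {h : V} (huh : G.Adj u h) (hh : 8 ≤ G.degree h)
    (hl : ∀ b, G.Adj u b → b ≠ h → G.degree b ≤ 7) :
    L ^ 2 ≤ 2 * (Fintype.card V : ℝ) + L + 24 := by
  have hu8 : 8 ≤ G.degree u := le_trans (by norm_num) s.deg_u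
  have hmem_h : h ∈ G.neighborFinset u := by rwa [mem_neighborFinset]
  have hsplit : L ^ 2 = L * x h + ∑ b ∈ (G.neighborFinset u).erase h, L * x b := by
    rw [s.sq_eq, ← Finset.add_sum_erase _ _ hmem_h]
  have hLh : L * x h ≤ L := by
    have := s.x1 h
    have := s.hL
    nlinarith
  have hcard : ((G.neighborFinset u).erase h).card = G.degree u - 1 := by
    rw [Finset.card_erase_of_mem hmem_h, G.card_neighborFinset_eq_degree]
  have hdn := deg_add_one_le G u
  have hdn' : (G.degree u : ℝ) + 1 ≤ Fintype.card V := by exact_mod_cast hdn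
  have hcard' : (((G.neighborFinset u).erase h).card : ℝ) = (G.degree u : ℝ) - 1 := by
    rw [hcard, Nat.cast_sub (by omega)]
    simp
  by_cases hF : ∃ b w, G.Adj u b ∧ b ≠ h ∧ G.Adj b w ∧ w ≠ u ∧ w ≠ h
  · obtain ⟨b0, w0, hub0, hb0h, hbw, hw0u, hw0h⟩ := hF
    have hb0 := hl b0 hub0 hb0h
    -- all other pairs meet this one
    have hmeet : ∀ b, G.Adj u b → b ≠ h → b ≠ b0 → b ≠ w0 → ∀ w, G.Adj b w →
        w = u ∨ w = h ∨ w = b0 ∨ w = w0 := by
      intro b hub hbh hbb hbw0 w hw
      by_contra hcon
      simp only [not_or] at hcon
      obtain ⟨c1, c2, c3, c4⟩ := hcon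
      exact pattern s.hT hh huh.symm hub0 hub hbw hw hb0h hw0h hw0u hbh c2 c1 (Ne.symm hbb)
        (Ne.symm c3) (Ne.symm hbw0) (Ne.symm c4)
    by_cases hw0 : G.degree w0 ≤ 7
    · have hpt : ∀ b ∈ (G.neighborFinset u).erase h, L * x b ≤
          2 + (if b = b0 then 7 else 0) + (if b = w0 then 7 else 0) + (if G.Adj b0 b then 1 else 0)
            + (if G.Adj w0 b then 1 else 0) := by
        intro b hb
        rw [Finset.mem_erase, mem_neighborFinset] at hb
        obtain ⟨hbh, hub⟩ := hb
        have h7 := s.deg_le b (hl b hub hbh)
        push_cast at h7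
        by_cases hbb : b = b0
        · rw [if_pos hbb]
          split_ifs <;> linarith
        · by_cases hbw0 : b = w0
          · rw [if_pos hbw0]
            split_ifs <;> linarith
          · rw [if_neg hbb, if_neg hbw0]
            have h1 := hmeet b hub hbh hbb hbw0
            have e1 : L * x b ≤ x u + x h + (if G.Adj b0 b then 1 else 0) +
                (if G.Adj w0 b then 1 else 0) := by
              have h2 : L * x b ≤ ∑ w ∈ ({u, h} ∪ ((if G.Adj b0 b then {b0} else ∅) ∪
                  (if G.Adj w0 b then {w0} else ∅)) : Finset V), x w := by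
                apply s.sub_le
                intro w hw
                rcases h1 w hw with rfl | rfl | rfl | rfl
                · simp
                · simp
                · simp [hw.symm]
                · simp [hw.symm]
              have h3 : ∀ S T : Finset V, ∑ w ∈ S ∪ T, x w ≤ ∑ w ∈ S, x w + ∑ w ∈ T, x w := by
                intro S T
                rw [← Finset.sum_union_inter]
                have : 0 ≤ ∑ w ∈ S ∩ T, x w := Finset.sum_nonneg fun w _ => s.x0 w
                linarith
              have h4 := h3 {u, h} ((if G.Adj b0 b then {b0} else ∅) ∪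
                  (if G.Adj w0 b then {w0} else ∅))
              have h5 := h3 (if G.Adj b0 b then {b0} else ∅) (if G.Adj w0 b then {w0} else ∅)
              have h6 := s.sum_two u h
              have h8 : ∑ w ∈ (if G.Adj b0 b then {b0} else ∅ : Finset V), x w ≤
                  (if G.Adj b0 b then 1 else 0) := by
                split_ifs
                · rw [Finset.sum_singleton]; exact s.x1 _
                · simp
              have h9 : ∑ w ∈ (if G.Adj w0 b then {w0} else ∅ : Finset V), x w ≤
                  (if G.Adj w0 b then 1 else 0) := by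
                split_ifs
                · rw [Finset.sum_singleton]; exact s.x1 _
                · simp
              linarith
            have := s.x1 u
            have := s.x1 h
            linarith
      have h3 := Finset.sum_le_sum hpt
      rw [Finset.sum_add_distrib, Finset.sum_add_distrib, Finset.sum_add_distrib,
        Finset.sum_add_distrib, Finset.sum_const, nsmul_eq_mul, hcard'] at h3
      have k1 := sum_ite_eq_le ((G.neighborFinset u).erase h) b0
      have k2 := sum_ite_eq_le ((G.neighborFinset u).erase h) w0
      have k3 := sum_ite_adj_le (G := G) ((G.neighborFinset u).erase h) b0 hb0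
      have k4 := sum_ite_adj_le (G := G) ((G.neighborFinset u).erase h) w0 hw0
      rw [hsplit]
      linarith
    · have hw08 : 8 ≤ G.degree w0 := by omega
      have hpt : ∀ b ∈ (G.neighborFinset u).erase h, L * x b ≤
          2 + (if b = b0 then 7 else 0) + (if G.Adj b0 b then 1 else 0) := by
        intro b hb
        rw [Finset.mem_erase, mem_neighborFinset] at hb
        obtain ⟨hbh, hub⟩ := hb
        have h7 := s.deg_le b (hl b hub hbh)
        push_cast at h7
        by_cases hbb : b = b0
        · rw [if_pos hbb]
          split_ifs <;> linarith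
        · rw [if_neg hbb]
          have hbw0 : b ≠ w0 := by
            rintro rfl
            have := hl b hub hbh
            omega
          have h1 := hmeet b hub hbh hbb hbw0
          have hnot : ¬ (G.Adj b h ∧ G.Adj b w0) := by
            rintro ⟨g1, g2⟩
            have := f2_deg s.hT hu8 hub g1 huh.ne.symm hh g2 hw0u hw0h
            omega
          have e1 : L * x b ≤ 2 + (if G.Adj b0 b then 1 else 0) := by
            have h2 : L * x b ≤ ∑ w ∈ ({u} ∪ ((if G.Adj b0 b then {b0} else ∅) ∪
                (if G.Adj b h then {h} else {w0})) : Finset V), x w := by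
              apply s.sub_le
              intro w hw
              rcases h1 w hw with rfl | rfl | rfl | rfl
              · simp
              · simp [hw]
              · simp [hw.symm]
              · have : ¬ G.Adj b h := fun g => hnot ⟨g, hw⟩
                simp [this]
            have h3 : ∀ S T : Finset V, ∑ w ∈ S ∪ T, x w ≤ ∑ w ∈ S, x w + ∑ w ∈ T, x w := by
              intro S T
              rw [← Finset.sum_union_inter]
              have : 0 ≤ ∑ w ∈ S ∩ T, x w := Finset.sum_nonneg fun w _ => s.x0 w
              linarith
            have h4 := h3 {u} ((if G.Adj b0 b then {b0} else ∅) ∪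
                (if G.Adj b h then {h} else {w0}))
            have h5 := h3 (if G.Adj b0 b then {b0} else ∅) (if G.Adj b h then {h} else {w0})
            have h6 : ∑ w ∈ ({u} : Finset V), x w ≤ 1 := by
              rw [Finset.sum_singleton]; exact s.x1 _
            have h8 : ∑ w ∈ (if G.Adj b0 b then {b0} else ∅ : Finset V), x w ≤
                (if G.Adj b0 b then 1 else 0) := by
              split_ifs
              · rw [Finset.sum_singleton]; exact s.x1 _
              · simp
            have h9 : ∑ w ∈ (if G.Adj b h then {h} else {w0} : Finset V), x w ≤ 1 := by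
              split_ifs <;> rw [Finset.sum_singleton] <;> exact s.x1 _
            linarith
          linarith
      have h3 := Finset.sum_le_sum hpt
      rw [Finset.sum_add_distrib, Finset.sum_add_distrib, Finset.sum_const, nsmul_eq_mul,
        hcard'] at h3
      have k1 := sum_ite_eq_le ((G.neighborFinset u).erase h) b0
      have k3 := sum_ite_adj_le (G := G) ((G.neighborFinset u).erase h) b0 hb0
      rw [hsplit]
      linarith
  · push Not at hF
    have hpt : ∀ b ∈ (G.neighborFinset u).erase h, L * x b ≤ 2 := by
      intro b hb
      rw [Finset.mem_erase, mem_neighborFinset] at hb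
      have h1 : L * x b ≤ ∑ w ∈ ({u, h} : Finset V), x w := by
        apply s.sub_le
        intro w hw
        by_cases hwu : w = u
        · simp [hwu]
        · simp [hF b w hb.2 hb.1 hw hwu]
      have h2 := s.sum_two u h
      have := s.x1 u
      have := s.x1 h
      linarith
    have h3 := Finset.sum_le_sum hpt
    rw [Finset.sum_const, nsmul_eq_mul, hcard'] at h3
    rw [hsplit]
    linarith

end Setup

end

end Pool.Agent.H71.Spex
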