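import Mathlib
import Pool.Agent.H71.Spex.Defs

/-!
A nonnegative eigenvector for the largest adjacency eigenvalue.
-/

namespace Pool.Agent.H71.Spex

open SimpleGraph Matrix

theorem exists_perron {V : Type} [Fintype V] [DecidableEq V] (G : SimpleGraph V)
    [DecidableRel G.Adj] (h : 0 < lam G) :
    ∃ (x : V → ℝ) (u : V), (∀ v, 0 ≤ x v) ∧ (∀ v, x v ≤ 1) ∧ x u = 1 ∧
      ∀ v, lam G * x v = ∑ w ∈ G.neighborFinset v, x w := by
  set A : Matrix V V ℝ := G.adjMatrix ℝ with hA
  have hlam : lam G = sSup (spectrum ℝ A) := by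
    unfold lam
    rw [hA]
    congr <;> exact Subsingleton.elim _ _
  have hherm : A.IsHermitian := by
    rw [Matrix.IsHermitian, hA, Matrix.conjTranspose_eq_transpose_of_trivial]
    exact G.isSymm_adjMatrix
  have hspec := hherm.spectrum_real_eq_range_eigenvalues
  have hne : (spectrum ℝ A).Nonempty := by
    by_contra hcon
    rw [Set.not_nonempty_iff_eq_empty] at hcon
    rw [hlam, hcon, Real.sSup_empty] at h
    exact lt_irrefl _ h
  have hfin : (spectrum ℝ A).Finite := by rw [hspec]; exact Set.finite_range _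
  have hmem : lam G ∈ spectrum ℝ A := by
    rw [hlam]; exact hne.csSup_mem hfin
  have hle : ∀ r ∈ spectrum ℝ A, r ≤ lam G := fun r hr => by
    rw [hlam]; exact le_csSup hfin.bddAbove hr
  obtain ⟨i, hi⟩ : ∃ i, hherm.eigenvalues i = lam G := by
    rw [hspec] at hmem; exact hmem
  set lm := lam G with hlm
  -- the positive semidefinite matrix
  set M : Matrix V V ℝ := algebraMap ℝ (Matrix V V ℝ) lm - A with hM
  have hMpsd : M.PosSemidef := by
    rw [Matrix.posSemidef_iff_isHermitian_and_spectrum_nonneg]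
    constructor
    · have h1 : (algebraMap ℝ (Matrix V V ℝ) lm).IsHermitian := by
        rw [Matrix.algebraMap_eq_diagonal]
        exact Matrix.isHermitian_diagonal _
      exact h1.sub hherm
    · rw [hM, ← spectrum.singleton_sub_eq]
      rintro _ ⟨a, ha, b, hb, rfl⟩
      rw [Set.mem_singleton_iff] at ha
      have := hle b hb
      show (0 : ℝ) ≤ a - b
      rw [ha]
      linarith
  set v : V → ℝ := ⇑(hherm.eigenvectorBasis i) with hv
  have hvA : A *ᵥ v = lm • v := by
    rw [hv, hherm.mulVec_eigenvectorBasis, hi]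
  have hv0 : v ≠ 0 := by
    intro h0
    have h1 := hherm.eigenvectorBasis.orthonormal.ne_zero i
    apply h1
    ext w
    exact congrFun h0 w
  set y : V → ℝ := fun w => |v w| with hy
  have hApos : ∀ a b, 0 ≤ A a b := by
    intro a b
    rw [hA, SimpleGraph.adjMatrix_apply]
    split_ifs <;> norm_num
  have hMapp : ∀ z : V → ℝ, z ⬝ᵥ (M *ᵥ z) = lm * (z ⬝ᵥ z) - z ⬝ᵥ (A *ᵥ z) := by
    intro z
    rw [hM, Matrix.sub_mulVec, dotProduct_sub, Algebra.algebraMap_eq_smul_one, Matrix.smul_mulVec,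
      Matrix.one_mulVec, dotProduct_smul, smul_eq_mul]
  have hyy : y ⬝ᵥ y = v ⬝ᵥ v := by
    simp only [dotProduct, hy, abs_mul_abs_self]
  have hyA : v ⬝ᵥ (A *ᵥ v) ≤ y ⬝ᵥ (A *ᵥ y) := by
    simp only [dotProduct, Matrix.mulVec, Finset.mul_sum]
    refine Finset.sum_le_sum fun a _ => Finset.sum_le_sum fun b _ => ?_
    have h1 : v a * (A a b * v b) ≤ |v a * (A a b * v b)| := le_abs_self _
    rw [abs_mul, abs_mul, abs_of_nonneg (hApos a b)] at h1
    exact h1
  have hM0 : M *ᵥ y = 0 := by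
    have h1 : (0 : ℝ) ≤ y ⬝ᵥ (M *ᵥ y) := by
      have := hMpsd.dotProduct_mulVec_nonneg y
      simpa using this
    have h2 : v ⬝ᵥ (M *ᵥ v) = 0 := by
      rw [hMapp, hvA, dotProduct_smul, smul_eq_mul, sub_self]
    have h3 : y ⬝ᵥ (M *ᵥ y) = 0 := by
      refine le_antisymm ?_ h1
      rw [hMapp, hyy]
      rw [hMapp] at h2
      linarith
    rw [← hMpsd.dotProduct_mulVec_zero_iff]
    simpa using h3
  have hyeig : ∀ w, lm * y w = ∑ z ∈ G.neighborFinset w, y z := by
    intro w
    have h1 := congrFun hM0 w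
    rw [hM, Matrix.sub_mulVec, Algebra.algebraMap_eq_smul_one, Matrix.smul_mulVec,
      Matrix.one_mulVec, Pi.sub_apply, Pi.smul_apply, smul_eq_mul, Pi.zero_apply, sub_eq_zero] at h1
    rw [h1, hA, SimpleGraph.adjMatrix_mulVec_apply]
  -- normalisation
  obtain ⟨w0, hw0⟩ : ∃ w, v w ≠ 0 := by
    by_contra hcon
    push Not at hcon
    exact hv0 (funext hcon)
  have hVne : (Finset.univ : Finset V).Nonempty := ⟨w0, Finset.mem_univ _⟩
  obtain ⟨u, _, hu⟩ := Finset.exists_max_image Finset.univ y hVne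
  have hyu : 0 < y u := lt_of_lt_of_le (abs_pos.mpr hw0) (hu w0 (Finset.mem_univ _))
  refine ⟨fun w => y w / y u, u, fun w => div_nonneg (abs_nonneg _) hyu.le,
    fun w => (div_le_one hyu).mpr (hu w (Finset.mem_univ _)), div_self hyu.ne', fun w => ?_⟩
  rw [← mul_div_assoc, hyeig, Finset.sum_div]

end Pool.Agent.H71.Spex
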