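import Mathlib
import Pool.Agent.H71.Spex.Perron
import Pool.Agent.H71.Spex.CaseA
import Pool.Agent.H71.Spex.CaseB

/-!
The upper bound for the largest eigenvalue of a `T9`-free graph, and its consequences.
-/

namespace Pool.Agent.H71.Spex

open SimpleGraph Filter

theorem Setup.bound {V : Type} [Fintype V] [DecidableEq V] {G : SimpleGraph V}
    [DecidableRel G.Adj] {x : V → ℝ} {L : ℝ} {u : V} (s : Setup G x L u) :
    L ^ 2 ≤ 2 * (Fintype.card V : ℝ) + L + 24 := by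
  by_cases hA : ∀ b, G.Adj u b → G.degree b ≤ 7
  · have := s.caseA hA
    linarith
  · push Not at hA
    obtain ⟨h, huh, hh⟩ := hA
    by_cases hB : ∀ b, G.Adj u b → b ≠ h → G.degree b ≤ 7
    · exact s.caseB2 huh (by omega) hB
    · push Not at hB
      obtain ⟨c, huc, hch, hc⟩ := hB
      have := s.caseB1 huh huc (Ne.symm hch) (by omega) (by omega)
      linarith

/-- The main bound. -/
theorem lam_sq_le {V : Type} [Fintype V] (G : SimpleGraph V) (hT : T9.Free G)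
    (h : 44 ≤ lam G) : lam G ^ 2 ≤ 2 * (Fintype.card V : ℝ) + lam G + 24 := by
  classical
  obtain ⟨x, u, h0, h1, hu, he⟩ := exists_perron G (by linarith)
  exact Setup.bound (u := u) ⟨hT, h0, h1, hu, he, h⟩

theorem bot_free {V : Type} : T9.Free (⊥ : SimpleGraph V) := by
  rintro ⟨φ⟩
  have h : T9.Adj 0 1 := by decide
  exact φ.toHom.map_adj h

theorem f_eq (n : ℕ) : f 2 1 n = 1 + √(2 * (n : ℝ) - 4) := by
  unfold f
  have h1 : (((2 : ℕ) : ℝ) + 1 - 1) ^ 2 + 4 * ((n : ℝ) * ((2 : ℕ) : ℝ) + 1 -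
      ((2 : ℕ) : ℝ) * 1 - ((2 : ℕ) : ℝ) ^ 2) = 2 ^ 2 * (2 * (n : ℝ) - 4) := by
    push_cast; ring
  rw [h1, Real.sqrt_mul (by norm_num), Real.sqrt_sq (by norm_num)]
  push_cast
  ring

theorem spex_le (n : ℕ) (hn : 2000 ≤ n) : spex n T9 ≤ f 2 1 n - 1 / 4 := by
  have hn' : (2000 : ℝ) ≤ n := by exact_mod_cast hn
  rw [f_eq]
  set r := √(2 * (n : ℝ) - 4) with hr
  have hr2 : r ^ 2 = 2 * (n : ℝ) - 4 := Real.sq_sqrt (by linarith)
  have hr60 : 60 ≤ r := by
    rw [hr]
    apply Real.le_sqrt_of_sq_le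
    linarith
  unfold spex
  apply csSup_le
  · exact ⟨lam (⊥ : SimpleGraph (Fin n)), ⊥, bot_free, rfl⟩
  · rintro y ⟨G, hG, rfl⟩
    by_cases h44 : 44 ≤ lam G
    · have h1 := lam_sq_le G hG h44
      rw [Fintype.card_fin] at h1
      by_contra hcon
      push Not at hcon
      nlinarith
    · push Not at h44
      linarith

end Pool.Agent.H71.Spex
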